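import Pool.Agent.H76.NP.Targets

/-!
# nvp_modules row CPX (helper2): the geometric complex of a clique complex, unit vectors as vertices
-/

set_option autoImplicit false

open Finset

namespace Pool.Agent.H2.NP

open Pool.Agent.H76.NP

/-- the abstract complex of the nonempty faces -/
def absC {n : ℕ} (A : Fin n → Fin n → Bool) : PreAbstractSimplicialComplex (Fin n) where
  faces := {σ | σ.Nonempty ∧ Face A σ}
  isRelLowerSet_faces := fun {_} hσ =>
    ⟨hσ.1, fun _ hτσ hτ => ⟨hτ, fun x hx y hy => hσ.2 x (hτσ hx) y (hτσ hy)⟩⟩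

theorem single_inj (n : ℕ) :
    Function.Injective (fun v : Fin n => EuclideanSpace.single v (1 : ℝ)) := by
  intro u v huv
  have h := congrArg (fun x : EuclideanSpace ℝ (Fin n) => x u) huv
  have h1 : (EuclideanSpace.single u (1 : ℝ)) u = if u = u then (1 : ℝ) else 0 :=
    PiLp.single_apply 2 ℝ u (1 : ℝ) u
  have h2 : (EuclideanSpace.single v (1 : ℝ)) u = if u = v then (1 : ℝ) else 0 :=
    PiLp.single_apply 2 ℝ v (1 : ℝ) u
  have h3 : (EuclideanSpace.single u (1 : ℝ)) u = (EuclideanSpace.single v (1 : ℝ)) u := h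
  by_contra hne
  rw [h1, h2, if_pos rfl, if_neg hne] at h3
  exact one_ne_zero h3

theorem single_li (n : ℕ) :
    LinearIndependent ℝ (fun v : Fin n => EuclideanSpace.single v (1 : ℝ)) := by
  have h := (EuclideanSpace.basisFun (Fin n) ℝ).orthonormal.linearIndependent
  have h2 : (⇑(EuclideanSpace.basisFun (Fin n) ℝ)) =
      (fun v : Fin n => EuclideanSpace.single v (1 : ℝ)) := by
    funext v
    exact EuclideanSpace.basisFun_apply (Fin n) ℝ v
  rw [h2] at h
  exact h

theorem sum_single_apply {n : ℕ} (σ : Finset (Fin n)) (c : Fin n → ℝ) (u : Fin n) :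
    (∑ v ∈ σ, c v • EuclideanSpace.single v (1 : ℝ)) u = if u ∈ σ then c u else 0 := by
  classical
  have h1 : (∑ v ∈ σ, c v • EuclideanSpace.single v (1 : ℝ)) u
      = ∑ v ∈ σ, (c v • EuclideanSpace.single v (1 : ℝ)) u := by
    rw [WithLp.ofLp_sum, Finset.sum_apply]
  rw [h1]
  have h2 : ∀ v ∈ σ, (c v • EuclideanSpace.single v (1 : ℝ)) u = if u = v then c v else 0 := by
    intro v _
    have h3 : (c v • EuclideanSpace.single v (1 : ℝ)) u
        = c v * (EuclideanSpace.single v (1 : ℝ)) u := rfl
    rw [h3, PiLp.single_apply]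
    split_ifs
    · rw [mul_one]
    · rw [mul_zero]
  rw [sum_congr rfl h2, sum_ite_eq]

theorem pf_CPX : T_CPX := by
  classical
  intro n A _
  have hind : AffineIndependent ℝ (Subtype.val :
      (⋃ s ∈ ((absC A).map (fun v : Fin n => EuclideanSpace.single v (1 : ℝ))).faces,
        (s : Set (EuclideanSpace ℝ (Fin n)))) → EuclideanSpace ℝ (Fin n)) := by
    refine (single_li n).affineIndependent.range.mono fun x hx => ?_
    simp only [Set.mem_iUnion, Finset.mem_coe] at hx
    obtain ⟨_, ⟨σ, _, rfl⟩, hx⟩ := hx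
    obtain ⟨v, _, rfl⟩ := Finset.mem_image.1 hx
    exact ⟨v, rfl⟩
  refine ⟨Geometry.SimplicialComplex.ofAffineIndependent
    ((absC A).map (fun v : Fin n => EuclideanSpace.single v (1 : ℝ))) hind, ?_, ?_⟩
  · intro s
    constructor
    · rintro ⟨σ, hσ, rfl⟩
      exact ⟨σ, hσ.1, hσ.2, by rw [Finset.coe_image]⟩
    · rintro ⟨σ, hσ1, hσ2, hs⟩
      refine ⟨σ, ⟨hσ1, hσ2⟩, ?_⟩
      apply Finset.coe_injective
      rw [Finset.coe_image, hs]
  · intro x
    rw [Geometry.SimplicialComplex.mem_space_iff]
    constructor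
    · rintro ⟨s, ⟨σ, hσ, rfl⟩, hx⟩
      rw [Finset.mem_convexHull'] at hx
      obtain ⟨w, hw0, hw1, hwx⟩ := hx
      have hinj : Set.InjOn (fun v : Fin n => EuclideanSpace.single v (1 : ℝ)) (σ : Set (Fin n)) :=
        (single_inj n).injOn
      rw [sum_image hinj] at hw1 hwx
      have hxu : ∀ u, x u = if u ∈ σ then w (EuclideanSpace.single u (1 : ℝ)) else 0 := by
        intro u
        rw [← hwx]
        exact sum_single_apply σ (fun v => w (EuclideanSpace.single v (1 : ℝ))) u
      refine ⟨?_, ?_, ?_⟩
      · intro v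
        rw [hxu v]
        split_ifs with h
        · exact hw0 _ (Finset.mem_image_of_mem _ h)
        · exact le_refl 0
      · calc ∑ v, x v = ∑ v, if v ∈ σ then w (EuclideanSpace.single v (1 : ℝ)) else 0 :=
              sum_congr rfl fun v _ => hxu v
          _ = ∑ v ∈ σ, w (EuclideanSpace.single v (1 : ℝ)) := by
              rw [sum_ite_mem, univ_inter]
          _ = 1 := hw1
      · intro u v hu hv
        rw [hxu u] at hu
        rw [hxu v] at hv
        have hu' : u ∈ σ := by
          by_contra h
          exact hu (if_neg h)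
        have hv' : v ∈ σ := by
          by_contra h
          exact hv (if_neg h)
        exact hσ.2 u hu' v hv'
    · rintro ⟨h0, h1, h2⟩
      have hsum : ∑ v ∈ univ.filter (fun v => x v ≠ 0), x v = 1 := by
        rw [sum_filter_ne_zero]; exact h1
      refine ⟨(univ.filter (fun v => x v ≠ 0)).image
        (fun v : Fin n => EuclideanSpace.single v (1 : ℝ)), ⟨univ.filter (fun v => x v ≠ 0),
          ⟨?_, ?_⟩, rfl⟩, ?_⟩
      · by_contra h
        rw [not_nonempty_iff_eq_empty] at h
        rw [h, sum_empty] at hsum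
        exact zero_ne_one hsum
      · intro u hu v hv
        exact h2 u v (mem_filter.1 hu).2 (mem_filter.1 hv).2
      · have hx : x = ∑ v ∈ univ.filter (fun v => x v ≠ 0),
            x v • EuclideanSpace.single v (1 : ℝ) := by
          ext u
          rw [sum_single_apply]
          split_ifs with h
          · rfl
          · by_contra h3
            exact h (mem_filter.2 ⟨mem_univ u, h3⟩)
        have hmem : (∑ v ∈ univ.filter (fun v => x v ≠ 0),
            x v • EuclideanSpace.single v (1 : ℝ)) ∈ convexHull ℝ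
              (((univ.filter (fun v => x v ≠ 0)).image
                (fun v : Fin n => EuclideanSpace.single v (1 : ℝ)) : Finset _) :
                Set (EuclideanSpace ℝ (Fin n))) :=
          (convex_convexHull ℝ _).sum_mem (fun v _ => h0 v) hsum
            (fun v hv => subset_convexHull ℝ _ (Finset.mem_coe.2 (Finset.mem_image_of_mem _ hv)))
        rw [← hx] at hmem
        exact hmem

end Pool.Agent.H2.NP
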